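import Pool.Agent.Lib.MP_bafc89_co.Quot

/-!
# MP_bafc89_co: cliques with pendant paths, and disjoint paths

For every `L` there are constants `M`, `A` such that EVERY graph `G` is `(M, A)`-quasi-isometric to
a graph `G'` (a contraction of `G`) with the following property: for every graph `H` which consists
of a complete graph, of paths with at most `L + 1` vertices, each attached to one vertex of the
complete graph by an edge at one of its ends, and of further disjoint paths with at most `L + 1`
vertices: if `H` is a minor of `G'`, then `H` is an induced minor of `G`.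
-/

set_option autoImplicit false

namespace Pool.Agent.Results.MP_bafc89_co.CliqueWithHairs

open SimpleGraph Pool.Agent.Lib.MPbafc89.Net

universe u v w

/-- `H` is a minor of `G`: disjoint connected branch sets, with an edge of `G` between the branch
sets of adjacent vertices. -/
def IsMinor {α : Type u} {V : Type v} (H : SimpleGraph α) (G : SimpleGraph V) : Prop :=
  ∃ B : α → Set V, (∀ i, (G.induce (B i)).Connected) ∧
    (∀ i j, i ≠ j → Disjoint (B i) (B j)) ∧
    (∀ i j, H.Adj i j → ∃ x ∈ B i, ∃ y ∈ B j, G.Adj x y)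

/-- `H` is an induced minor of `G`: disjoint connected branch sets, with an edge of `G` between two
branch sets if and only if the two vertices of `H` are adjacent. -/
def IsInducedMinor {α : Type u} {V : Type v} (H : SimpleGraph α) (G : SimpleGraph V) : Prop :=
  ∃ B : α → Set V, (∀ i, (G.induce (B i)).Connected) ∧
    (∀ i j, i ≠ j → Disjoint (B i) (B j)) ∧
    (∀ i j, i ≠ j → (H.Adj i j ↔ ∃ x ∈ B i, ∃ y ∈ B j, G.Adj x y))

/-- The complete graph on `ι` together with one path for every `p : π`, with vertices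
`(p, 0), ..., (p, l p)`.  If `att p = some i`, the end `(p, 0)` of the path is joined to the vertex
`i` of the complete graph; if `att p = none`, the path is a component. -/
def hairy {ι : Type u} {π : Type v} (l : π → ℕ) (att : π → Option ι) :
    SimpleGraph (ι ⊕ (Σ p : π, Fin (l p + 1))) where
  Adj
    | .inl i, .inl i' => i ≠ i'
    | .inl i, .inr q => att q.1 = some i ∧ q.2.val = 0
    | .inr q, .inl i => att q.1 = some i ∧ q.2.val = 0
    | .inr q, .inr q' => q.1 = q'.1 ∧ (q.2.val + 1 = q'.2.val ∨ q'.2.val + 1 = q.2.val)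
  symm := ⟨by
    rintro (i | q) (i' | q') h
    · exact Ne.symm h
    · exact h
    · exact h
    · exact ⟨h.1.symm, h.2.symm⟩⟩
  loopless := ⟨by
    rintro (i | q) h
    · exact h rfl
    · rcases h.2 with h | h <;> omega⟩

/-- `H` is a complete graph with pendant paths and disjoint paths, all paths having at most `L + 1`
vertices. -/
def IsHairy {α : Type u} (L : ℕ) (H : SimpleGraph α) : Prop :=
  ∃ (ι π : Type u) (l : π → ℕ) (att : π → Option ι), (∀ p, l p ≤ L) ∧
    Nonempty (H ≃g hairy l att)

theorem IsMinor.congr {α : Type u} {β : Type v} {V : Type w} {H : SimpleGraph α}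
    {H' : SimpleGraph β} (e : H ≃g H') {G : SimpleGraph V} (h : IsMinor H G) : IsMinor H' G := by
  obtain ⟨B, h1, h2, h3⟩ := h
  refine ⟨fun i => B (e.symm i), fun i => h1 _, fun i j hij => h2 _ _ ?_, fun i j hij => h3 _ _ ?_⟩
  · exact fun h => hij (e.symm.injective h)
  · exact e.symm.map_rel_iff.mpr hij

theorem IsInducedMinor.congr {α : Type u} {β : Type v} {V : Type w} {H : SimpleGraph α}
    {H' : SimpleGraph β} (e : H ≃g H') {G : SimpleGraph V} (h : IsInducedMinor H G) :
    IsInducedMinor H' G := by
  obtain ⟨B, h1, h2, h3⟩ := h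
  refine ⟨fun i => B (e.symm i), fun i => h1 _, fun i j hij => h2 _ _ ?_, fun i j hij => ?_⟩
  · exact fun h => hij (e.symm.injective h)
  · rw [← h3 _ _ (fun h => hij (e.symm.injective h))]
    exact e.symm.map_rel_iff.symm

section main

variable {V : Type w} {G : SimpleGraph V} {R : ℕ} {N : Set V} {root : V → V}
variable {ι : Type u} {π : Type v} {l : π → ℕ} {att : π → Option ι}

/-- the data of one path -/
theorem path_data (h : Cells G R N root) (hR : ∀ p, l p + 1 ≤ R)
    {B' : ι ⊕ (Σ p : π, Fin (l p + 1)) → Set N}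
    (hconn : ∀ i, ((quot G N root).induce (B' i)).Connected)
    (hadj : ∀ i j, (hairy l att).Adj i j → ∃ x ∈ B' i, ∃ y ∈ B' j, (quot G N root).Adj x y)
    (p : π) :
    ∃ (a : N) (γ : ℕ → V) (L : ℕ), a ∈ B' (.inr ⟨p, 0⟩) ∧ l p ≤ L ∧
      (∀ j ≤ L, root (γ j) = (a : V)) ∧
      (∀ i j, i ≤ L → j ≤ L → γ i = γ j → i = j) ∧
      (∀ i j, i ≤ L → j ≤ L → G.Adj (γ i) (γ j) → i = j + 1 ∨ j = i + 1) ∧
      (∀ j < L, G.Adj (γ j) (γ (j + 1))) ∧
      (∀ j ≤ l p, ∀ z, G.Adj (γ j) z → root z = (a : V)) ∧
      (∀ i, att p = some i → l p < L ∧ ∃ y, proj h y ∈ B' (.inl i) ∧ G.Adj (γ L) y) := by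
  cases hatt : att p with
  | some i =>
    obtain ⟨c', hc', c, hc, hcc⟩ := hadj (.inl i) (.inr ⟨p, 0⟩) ⟨hatt, rfl⟩
    obtain ⟨γ, L, y, h1, h2, h3, h4, h5, h6, h7, h8⟩ := exists_path h hcc.symm
    have hl := hR p
    refine ⟨c, γ, L, hc, by omega, h2, h3, h4, h5, fun j hj => h8 j (by omega), ?_⟩
    intro i' hi'
    have : i = i' := by simpa using hi'
    subst this
    refine ⟨by omega, y, ?_, h7⟩
    have : proj h y = c' := Subtype.ext h6
    rw [this]; exact hc'
  | none =>
    by_cases h0 : l p = 0
    · obtain ⟨a, ha⟩ := (hconn (.inr ⟨p, 0⟩)).nonempty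
      have hl := hR p
      refine ⟨a, fun _ => (a : V), 0, ha, by omega, fun j _ => h.fix a a.2, ?_, ?_, ?_, ?_, ?_⟩
      · intro i j hi hj _; omega
      · intro i j _ _ hij; exact absurd rfl hij.ne
      · intro j hj; omega
      · intro j _ z hz
        refine h.ball a a.2 z ?_
        calc G.edist z (a : V) = 1 := edist_eq_one_iff_adj.mpr hz.symm
          _ ≤ R := by exact_mod_cast (by omega : 1 ≤ R)
      · intro i hi; simp at hi
    · have hlt : 1 < l p + 1 := by omega
      obtain ⟨c, hc, c', hc', hcc⟩ := hadj (.inr ⟨p, 0⟩) (.inr ⟨p, ⟨1, hlt⟩⟩)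
        ⟨rfl, Or.inl (by simp)⟩
      obtain ⟨γ, L, y, h1, h2, h3, h4, h5, h6, h7, h8⟩ := exists_path h hcc
      have hl := hR p
      refine ⟨c, γ, L, hc, by omega, h2, h3, h4, h5, fun j hj => h8 j (by omega), ?_⟩
      intro i' hi'
      simp at hi'

/-- reachability inside a set -/
def Rch (G : SimpleGraph V) (S : Set V) (x y : V) : Prop :=
  ∃ (hx : x ∈ S) (hy : y ∈ S), (G.induce S).Reachable ⟨x, hx⟩ ⟨y, hy⟩

theorem Rch.symm {S : Set V} {x y : V} (h : Rch G S x y) : Rch G S y x := by
  obtain ⟨hx, hy, h⟩ := h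
  exact ⟨hy, hx, h.symm⟩

theorem Rch.trans {S : Set V} {x y z : V} (h : Rch G S x y) (h' : Rch G S y z) : Rch G S x z := by
  obtain ⟨hx, hy, h⟩ := h
  obtain ⟨hy', hz, h'⟩ := h'
  exact ⟨hx, hz, h.trans h'⟩

theorem Rch.adj {S : Set V} {x y : V} (hx : x ∈ S) (hy : y ∈ S) (h : G.Adj x y) : Rch G S x y := by
  refine ⟨hx, hy, SimpleGraph.Adj.reachable ?_⟩
  simpa using h

theorem connected_of_rch {S : Set V} {c : V} (hc : c ∈ S) (h : ∀ x ∈ S, Rch G S x c) :
    (G.induce S).Connected := by
  rw [SimpleGraph.connected_iff_exists_forall_reachable]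
  refine ⟨⟨c, hc⟩, ?_⟩
  rintro ⟨x, hx⟩
  obtain ⟨_, _, h'⟩ := h x hx
  exact h'.symm

/-- the cells of a connected set of cells form a connected set -/
theorem rch_cells (h : Cells G R N root) {S : Set V} {T : Set N} (hS : ∀ v, proj h v ∈ T → v ∈ S)
    (hT : ((quot G N root).induce T).Connected) {c0 : N} (hc0 : c0 ∈ T) (v : V)
    (hv : proj h v ∈ T) : Rch G S v (c0 : V) := by
  -- from a vertex to the centre of its cell
  have hA : ∀ (c : N), c ∈ T → ∀ v, root v = (c : V) → Rch G S v (c : V) := by
    intro c hc v hv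
    have hfix := h.fix c c.2
    have hsub : {x | root x = (c : V)} ⊆ S := by
      intro x hx
      refine hS x ?_
      have : proj h x = c := Subtype.ext hx
      rw [this]; exact hc
    refine ⟨hsub hv, hsub hfix, ?_⟩
    exact (h.conn c c.2 v hv hfix).map (SimpleGraph.induceHomOfLE G hsub).toHom
  have hB : ∀ (c c' : N), c ∈ T → c' ∈ T → (quot G N root).Adj c c' →
      Rch G S (c : V) (c' : V) := by
    intro c c' hc hc' hcc
    obtain ⟨-, x, y, hx, hy, ha⟩ := hcc
    have h1 := hA c hc x hx
    have h2 := hA c' hc' y hy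
    obtain ⟨hxS, _, _⟩ := id h1
    obtain ⟨hyS, _, _⟩ := id h2
    exact h1.symm.trans ((Rch.adj hxS hyS ha).trans h2)
  have hC : ∀ (c c' : T), ((quot G N root).induce T).Reachable c c' →
      Rch G S ((c : N) : V) ((c' : N) : V) := by
    rintro c c' ⟨w⟩
    induction w with
    | nil =>
      rename_i c
      have hm : ((c : N) : V) ∈ S := by
        refine hS _ ?_
        rw [proj_surj h]; exact c.2
      exact ⟨hm, hm, SimpleGraph.Reachable.refl _⟩
    | @cons a b c hab p ih =>
      exact (hB a b a.2 b.2 (by simpa using hab)).trans ih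
  have h1 := hA (proj h v) hv v rfl
  have h2 := hC ⟨proj h v, hv⟩ ⟨c0, hc0⟩ (hT.preconnected _ _)
  exact h1.trans h2

theorem induced_of_minor (h : Cells G R N root) (hR : ∀ p, l p + 1 ≤ R)
    (hm : IsMinor (hairy l att) (quot G N root)) : IsInducedMinor (hairy l att) G := by
  obtain ⟨B', hconn, hdis, hadj⟩ := hm
  choose a γ L ha hlL hroot hinj hadj1 hadj2 hball htail using path_data h hR hconn hadj
  have hproj : ∀ p j, j ≤ L p → proj h (γ p j) = a p := fun p j hj => Subtype.ext (hroot p j hj)
  have hF2 : ∀ p q, a p = a q → p = q := by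
    intro p q hpq
    by_contra hne
    have hne' : (Sum.inr ⟨p, 0⟩ : ι ⊕ (Σ p : π, Fin (l p + 1))) ≠ Sum.inr ⟨q, 0⟩ := by
      intro he
      have := Sum.inr_injective he
      exact hne (congrArg Sigma.fst this)
    have := hdis _ _ hne'
    rw [Set.disjoint_left] at this
    refine this (ha p) ?_
    rw [hpq]; exact ha q
  have hF3 : ∀ p i, a p ∉ B' (.inl i) := by
    intro p i hpi
    have hne' : (Sum.inl i : ι ⊕ (Σ p : π, Fin (l p + 1))) ≠ Sum.inr ⟨p, 0⟩ := by simp
    have := hdis _ _ hne'
    rw [Set.disjoint_left] at this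
    exact this hpi (ha p)
  -- branch sets
  let BL : ι → Set V := fun i => {v | proj h v ∈ B' (.inl i)} ∪
    {v | ∃ p, att p = some i ∧ ∃ j, l p < j ∧ j ≤ L p ∧ γ p j = v}
  let B : ι ⊕ (Σ p : π, Fin (l p + 1)) → Set V := fun s =>
    match s with
    | .inl i => BL i
    | .inr q => {γ q.1 (l q.1 - q.2.val)}
  have hfin : ∀ (q : Σ p : π, Fin (l p + 1)), q.2.val ≤ l q.1 := fun q => by
    have := q.2.isLt; omega
  have hadjLR : ∀ i (q : Σ p : π, Fin (l p + 1)), ((att q.1 = some i ∧ q.2.val = 0) ↔
      ∃ x ∈ BL i, G.Adj x (γ q.1 (l q.1 - q.2.val))) := by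
    intro i q
    constructor
    · rintro ⟨h1, h2⟩
      obtain ⟨h3, -⟩ := htail q.1 i h1
      refine ⟨γ q.1 (l q.1 + 1), Or.inr ⟨q.1, h1, l q.1 + 1, by omega, by omega, rfl⟩, ?_⟩
      rw [h2, Nat.sub_zero]
      exact (hadj2 q.1 (l q.1) h3).symm
    · rintro ⟨x, hx, hxa⟩
      have h1 : root x = (a q.1 : V) := hball q.1 _ (by omega) x hxa.symm
      have h2 : proj h x = a q.1 := Subtype.ext h1
      rcases hx with hx | ⟨p, hp, j, hj1, hj2, rfl⟩
      · exfalso
        have hx' : proj h x ∈ B' (.inl i) := hx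
        rw [h2] at hx'
        exact hF3 _ _ hx'
      · rw [hproj p j hj2] at h2
        have h3 := hF2 _ _ h2
        subst h3
        refine ⟨hp, ?_⟩
        have h4 := hfin q
        have h5 := hlL q.1
        have h6 := hadj1 q.1 _ _ hj2 (by omega) hxa
        omega
  refine ⟨B, ?_, ?_, ?_⟩
  · rintro (i | q)
    · show (G.induce (BL i)).Connected
      obtain ⟨c0, hc0⟩ := (hconn (.inl i)).nonempty
      have hS : ∀ v, proj h v ∈ B' (.inl i) → v ∈ BL i := fun v hv => Or.inl hv
      have hc0S : (c0 : V) ∈ BL i := hS _ (by rw [proj_surj h]; exact hc0)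
      refine connected_of_rch hc0S ?_
      rintro x (hx | ⟨p, hp, j, hj1, hj2, rfl⟩)
      · exact rch_cells h hS (hconn (.inl i)) hc0 x hx
      · obtain ⟨h3, y, hy1, hy2⟩ := htail p i hp
        have hmem : ∀ j, l p < j → j ≤ L p → γ p j ∈ BL i := fun j h1 h2 =>
          Or.inr ⟨p, hp, j, h1, h2, rfl⟩
        have hend : Rch G (BL i) (γ p (L p)) (c0 : V) :=
          (Rch.adj (hmem _ h3 le_rfl) (hS y hy1) hy2).trans
            (rch_cells h hS (hconn (.inl i)) hc0 y hy1)
        have hind : ∀ k j, L p = j + k → l p < j → Rch G (BL i) (γ p j) (c0 : V) := by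
          intro k
          induction k with
          | zero =>
            intro j h1 h2
            rw [Nat.add_zero] at h1
            rw [← h1]; exact hend
          | succ k ih =>
            intro j h1 h2
            exact (Rch.adj (hmem _ h2 (by omega)) (hmem _ (by omega) (by omega))
              (hadj2 p j (by omega))).trans (ih (j + 1) (by omega) (by omega))
        exact hind (L p - j) j (by omega) hj1
    · show (G.induce ({γ q.1 (l q.1 - q.2.val)} : Set V)).Connected
      refine connected_of_rch (Set.mem_singleton _) ?_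
      rintro x hx
      have : x = γ q.1 (l q.1 - q.2.val) := hx
      subst this
      exact ⟨rfl, rfl, SimpleGraph.Reachable.refl _⟩
  · have hLR : ∀ i (q : Σ p : π, Fin (l p + 1)), γ q.1 (l q.1 - q.2.val) ∉ BL i := by
      intro i q hq
      have h5 := hlL q.1
      rcases hq with hq | ⟨p, hp, j, hj1, hj2, he⟩
      · have hq' : proj h (γ q.1 (l q.1 - q.2.val)) ∈ B' (.inl i) := hq
        rw [hproj q.1 _ (by omega)] at hq'
        exact hF3 _ _ hq'
      · have h1 := congrArg (proj h) he
        rw [hproj p j hj2, hproj q.1 _ (by omega)] at h1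
        have h3 := hF2 _ _ h1
        subst h3
        have := hinj q.1 _ _ hj2 (by omega) he
        omega
    rintro (i | q) (i' | q') hne
    · show Disjoint (BL i) (BL i')
      rw [Set.disjoint_left]
      have hne' : i ≠ i' := fun he => hne (congrArg _ he)
      have hdd : Disjoint (B' (.inl i)) (B' (.inl i')) := hdis _ _ hne
      rw [Set.disjoint_left] at hdd
      rintro x (hx | ⟨p, hp, j, hj1, hj2, rfl⟩) (hx' | ⟨p', hp', j', hj1', hj2', he⟩)
      · exact hdd hx hx'
      · subst he
        have hx1 : proj h (γ p' j') ∈ B' (.inl i) := hx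
        rw [hproj p' j' hj2'] at hx1
        exact hF3 _ _ hx1
      · have hx1 : proj h (γ p j) ∈ B' (.inl i') := hx'
        rw [hproj p j hj2] at hx1
        exact hF3 _ _ hx1
      · have h1 := congrArg (proj h) he
        rw [hproj p j hj2, hproj p' j' hj2'] at h1
        have h3 := hF2 _ _ h1
        subst h3
        rw [hp] at hp'
        exact hne' (by simpa using hp')
    · show Disjoint (BL i) ({γ q'.1 (l q'.1 - q'.2.val)} : Set V)
      rw [Set.disjoint_singleton_right]
      exact hLR i q'
    · show Disjoint ({γ q.1 (l q.1 - q.2.val)} : Set V) (BL i')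
      rw [Set.disjoint_singleton_left]
      exact hLR i' q
    · show Disjoint ({γ q.1 (l q.1 - q.2.val)} : Set V) {γ q'.1 (l q'.1 - q'.2.val)}
      rw [Set.disjoint_singleton]
      intro he
      have h5 := hlL q.1
      have h5' := hlL q'.1
      have h1 := congrArg (proj h) he
      rw [hproj q.1 _ (by omega), hproj q'.1 _ (by omega)] at h1
      have h3 := hF2 _ _ h1
      obtain ⟨p, j⟩ := q
      obtain ⟨p', j'⟩ := q'
      dsimp only at h3 he h5
      subst h3
      have h4 := hinj p _ _ (by omega) (by omega) he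
      have h6 := j.isLt
      have h7 := j'.isLt
      have : j = j' := Fin.ext (by omega)
      subst this
      exact hne rfl
  · rintro (i | q) (i' | q') hne
    · have hne' : i ≠ i' := fun he => hne (congrArg _ he)
      constructor
      · intro hH
        obtain ⟨x, hx, y, hy, hxy⟩ := hadj _ _ hH
        obtain ⟨-, x', y', hx', hy', ha'⟩ := hxy
        refine ⟨x', Or.inl ?_, y', Or.inl ?_, ha'⟩
        · have : proj h x' = x := Subtype.ext hx'
          show proj h x' ∈ B' (.inl i)
          rw [this]; exact hx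
        · have : proj h y' = y := Subtype.ext hy'
          show proj h y' ∈ B' (.inl i')
          rw [this]; exact hy
      · intro _
        exact hne'
    · have h1 := hadjLR i q'
      constructor
      · intro hH
        obtain ⟨x, hx, hxa⟩ := h1.mp hH
        exact ⟨x, hx, _, rfl, hxa⟩
      · rintro ⟨x, hx, y, hy, hxy⟩
        have hy' : y = γ q'.1 (l q'.1 - q'.2.val) := hy
        subst hy'
        exact h1.mpr ⟨x, hx, hxy⟩
    · have h1 := hadjLR i' q
      constructor
      · intro hH
        obtain ⟨x, hx, hxa⟩ := h1.mp hH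
        exact ⟨_, rfl, x, hx, hxa.symm⟩
      · rintro ⟨y, hy, x, hx, hxy⟩
        have hy' : y = γ q.1 (l q.1 - q.2.val) := hy
        subst hy'
        exact h1.mpr ⟨x, hx, hxy.symm⟩
    · obtain ⟨p, j⟩ := q
      obtain ⟨p', j'⟩ := q'
      have h6 := j.isLt
      have h7 := j'.isLt
      have h8 := hlL p
      constructor
      · rintro ⟨h1, h2⟩
        dsimp only at h1 h2
        subst h1
        refine ⟨_, rfl, _, rfl, ?_⟩
        dsimp only
        rcases h2 with h2 | h2
        · have h3 : l p - j.val = (l p - j'.val) + 1 := by omega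
          rw [h3]
          exact (hadj2 p _ (by omega)).symm
        · have h3 : l p - j'.val = (l p - j.val) + 1 := by omega
          rw [h3]
          exact hadj2 p _ (by omega)
      · rintro ⟨x, hx, y, hy, hxy⟩
        have hx' : x = γ p (l p - j.val) := hx
        have hy' : y = γ p' (l p' - j'.val) := hy
        subst hx' hy'
        have h1 : root (γ p' (l p' - j'.val)) = (a p : V) := hball p _ (by omega) _ hxy
        have h8' := hlL p'
        have h2 : proj h (γ p' (l p' - j'.val)) = a p := Subtype.ext h1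
        rw [hproj p' _ (by omega)] at h2
        have h3 := hF2 _ _ h2
        subst h3
        have h4 := hadj1 p' _ _ (by omega) (by omega) hxy
        exact ⟨rfl, by dsimp only; omega⟩

end main

/-- **Cliques with pendant paths and disjoint paths.**  For every `L` there are constants `M`, `A`
such that every graph `G` has an `(M, A)`-quasi-isometry onto some graph `G'` such that, for every
complete graph with pendant paths and disjoint paths `H`, all paths having at most `L + 1` vertices:
if `G` has no induced `H`-minor, then `G'` has no `H`-minor. -/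
theorem result (L : ℕ) : ∃ M A : ℕ, ∀ (V : Type w) (G : SimpleGraph V),
    ∃ (W : Type w) (G' : SimpleGraph W) (f : V → W),
      (∀ x y : V, G.edist x y ≤ (M : ℕ∞) * G'.edist (f x) (f y) + (A : ℕ∞)) ∧
      (∀ x y : V, G'.edist (f x) (f y) ≤ (M : ℕ∞) * G.edist x y + (A : ℕ∞)) ∧
      (∀ y : W, ∃ x : V, G'.edist (f x) y ≤ (A : ℕ∞)) ∧
      ∀ (α : Type u) (H : SimpleGraph α), IsHairy L H → ¬ IsInducedMinor H G → ¬ IsMinor H G' := by
  refine ⟨4 * (L + 1) + 1, 4 * (L + 1), fun V G => ?_⟩
  obtain ⟨N, root, h⟩ := exists_cells G (L + 1)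
  refine ⟨N, quot G N root, proj h, ?_, ?_, ?_, ?_⟩
  · intro x y
    exact edist_le_proj h x y
  · intro x y
    refine (edist_proj_le h x y).trans ?_
    calc G.edist x y = 1 * G.edist x y := (one_mul _).symm
      _ ≤ ((4 * (L + 1) + 1 : ℕ) : ℕ∞) * G.edist x y := by
          gcongr
          exact_mod_cast (by omega : 1 ≤ 4 * (L + 1) + 1)
      _ ≤ _ := le_self_add
  · intro c
    refine ⟨(c : V), ?_⟩
    rw [proj_surj h]; simp
  · rintro α H ⟨ι, π, l, att, hl, ⟨e⟩⟩ hind hmin
    have h1 : IsMinor (hairy l att) (quot G N root) := hmin.congr e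
    have h2 := induced_of_minor h (fun p => by have := hl p; omega) h1
    exact hind (h2.congr e.symm)

end Pool.Agent.Results.MP_bafc89_co.CliqueWithHairs
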