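import Pool.Agent.Lib.MP_bafc89_co.KE.SHR
import Pool.Agent.Lib.MP_bafc89_co.KE.NCV
import Pool.Agent.Lib.MP_bafc89_co.KE.STP
import Pool.Agent.Lib.MP_bafc89_co.KE.LMA
import Pool.Agent.Lib.MP_bafc89_co.KE.TRV
import Pool.Agent.Lib.MP_bafc89_co.KE.LMB
import Pool.Agent.Lib.MP_bafc89_co.KE.INT
import Pool.Agent.Lib.MP_bafc89_co.KE.INV
import Pool.Agent.Lib.MP_bafc89_co.KE.STE
import Pool.Agent.Lib.MP_bafc89_co.KE.UNI
import Pool.Agent.Lib.MP_bafc89_co.KE.QIL
import Pool.Agent.Lib.MP_bafc89_co.KE.LFT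
import Pool.Agent.Lib.MP_bafc89_co.KE.QNO
import Pool.Agent.Lib.MP_bafc89_co.KE.ZRN
import Pool.Agent.Lib.MP_bafc89_co.KE.NMI
import Pool.Agent.Lib.MP_bafc89_co.KE.SET
import Pool.Agent.Lib.MP_bafc89_co.KE.MAI
import Pool.Agent.Lib.MP_bafc89_co.KE.MNI
import Pool.Agent.Lib.MP_bafc89_co.KE.MNM
import Pool.Agent.Lib.MP_bafc89_co.KE.FIN

/-!
# MP_bafc89_co: the complete graph minus an edge

Let `n ≥ 3` and let `H` be the complete graph on `n` vertices minus one edge.  Every graph `G`
(finite or infinite) without an induced minor `H` has a quotient `G'` by an equivalence relation all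
of whose classes are cliques, with `d_G ≤ 2 d_G' + 1` and `d_G' ≤ d_G`, which has no minor
`K_(max(n, 2 n - 6))`.  For `n ≤ 6` the graph `G'` has no minor `H`: the statement of Q1 holds for
`H`, with the constants `M = 2`, `A = 1`.
-/

set_option autoImplicit false

namespace Pool.Agent.Results.MP_bafc89_co.CompleteMinusEdge

open SimpleGraph Pool.Agent.Lib.MPbafc89.KE

universe u v

/-- **The complete graph minus an edge.**  Let `n ≥ 3`, let `H` be the complete graph on `n`
vertices minus one edge, and let `G` be a graph of which `H` is not an induced minor.  There is a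
quotient graph `G'` of `G`, `f : V → W` the quotient map, such that two different vertices of `G`
with the same image are adjacent, `d_G(x, y) ≤ 2 d_G'(f x, f y) + 1`,
`d_G'(f x, f y) ≤ d_G(x, y)`, `H` is not an induced minor of `G'`, the complete graph on
`max(n, 2 n - 6)` vertices is not a minor of `G'`, and if `n ≤ 6` then `H` is not a minor of `G'`. -/
theorem result (n : ℕ) (hn : 3 ≤ n) (V : Type u) (G : SimpleGraph V) (α : Type v)
    (H : SimpleGraph α) (hH : IsCompleteMinusEdge n H) (hG : ¬ IsInducedMinor H G) :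
    ∃ (W : Type u) (G' : SimpleGraph W) (f : V → W), CliqueQuotient G G' f ∧
      (∀ x y : V, G.edist x y ≤ 2 * G'.edist (f x) (f y) + 1) ∧
      (∀ x y : V, G'.edist (f x) (f y) ≤ G.edist x y) ∧
      ¬ IsInducedMinor H G' ∧
      ¬ IsMinor (⊤ : SimpleGraph (Fin (max n (2 * n - 6)))) G' ∧
      (n ≤ 6 → ¬ IsMinor H G') := by
  have hTRV : SpecTRV.{u} := specTRV specSHR (specLMA specNCV specSTP)
  have hLMB : SpecLMB.{u} := specLMB hTRV
  have hINV : SpecINV.{u} := specINV hLMB
  have hUNI : SpecUNI.{u} := specUNI (specINT hLMB) hINV specSTE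
  have hLFT : SpecLFT.{u} := specLFT
  have hQNO : SpecQNO.{u} := specQNO hLFT
  have hNMI : SpecNMI.{u} := specNMI hTRV hLFT hQNO specZRN
  have hMAI : SpecMAI.{u} := specMAI hINV hUNI specSET hNMI hQNO specQIL
  exact specFIN.{u, v} hMAI specMNI specMNM n hn V G α H hH hG

end Pool.Agent.Results.MP_bafc89_co.CompleteMinusEdge
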