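import Pool.Agent.Lib.MP_bafc89_co.KP.NC2
import Pool.Agent.Lib.MP_bafc89_co.KP.SH5
import Pool.Agent.Lib.MP_bafc89_co.KP.MIN
import Pool.Agent.Lib.MP_bafc89_co.KP.MP1
import Pool.Agent.Lib.MP_bafc89_co.KP.MP2
import Pool.Agent.Lib.MP_bafc89_co.KP.MP3
import Pool.Agent.Lib.MP_bafc89_co.KP.MPC
import Pool.Agent.Lib.MP_bafc89_co.KP.MPR
import Pool.Agent.Lib.MP_bafc89_co.KP.MPD
import Pool.Agent.Lib.MP_bafc89_co.KP.ALF
import Pool.Agent.Lib.MP_bafc89_co.KP.GRW
import Pool.Agent.Lib.MP_bafc89_co.KP.EX2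
import Pool.Agent.Lib.MP_bafc89_co.KP.ONE
import Pool.Agent.Lib.MP_bafc89_co.KP.CLO
import Pool.Agent.Lib.MP_bafc89_co.KP.DIS
import Pool.Agent.Lib.MP_bafc89_co.KP.TWO
import Pool.Agent.Lib.MP_bafc89_co.KP.BLK
import Pool.Agent.Lib.MP_bafc89_co.KP.CNB
import Pool.Agent.Lib.MP_bafc89_co.KP.INT
import Pool.Agent.Lib.MP_bafc89_co.KP.GAT
import Pool.Agent.Lib.MP_bafc89_co.KP.UNI
import Pool.Agent.Lib.MP_bafc89_co.KP.STD
import Pool.Agent.Lib.MP_bafc89_co.KP.QI7
import Pool.Agent.Lib.MP_bafc89_co.KP.LF2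
import Pool.Agent.Lib.MP_bafc89_co.KP.QNT
import Pool.Agent.Lib.MP_bafc89_co.KP.SNG
import Pool.Agent.Lib.MP_bafc89_co.KP.TRF
import Pool.Agent.Lib.MP_bafc89_co.KP.NM5
import Pool.Agent.Lib.MP_bafc89_co.KP.MAJ
import Pool.Agent.Lib.MP_bafc89_co.KP.MNT
import Pool.Agent.Lib.MP_bafc89_co.KP.MMT

/-!
# MP_bafc89_co: the complete graph on five vertices minus two adjacent edges

Let `H` be the complete graph on five vertices minus two adjacent edges, in other words `K_4`
plus a vertex adjacent to exactly two of its vertices.  Every graph `G` (finite or infinite) without an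
induced minor `H` has an `(8, 7)`-quasi-isometry onto a graph `G'` without a minor `H`: the
statement of Q1 holds for `H`.
-/

set_option autoImplicit false

namespace Pool.Agent.Results.MP_bafc89_co.FiveMinusPath

open SimpleGraph Pool.Agent.Lib.MPbafc89.KP
open Pool.Agent.Lib.MPbafc89.KE (IsMinor IsInducedMinor)

universe u v

/-- **`K_5` minus two adjacent edges.**  Let `H` be the complete graph on five vertices minus two
adjacent edges and let `G` be a graph of which `H` is not an induced minor.  There are a graph `G'`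
and a surjective map `f : V → W` with `d_G(x, y) ≤ 8 d_G'(f x, f y) + 7` and
`d_G'(f x, f y) ≤ d_G(x, y)` such that `H` is not a minor of `G'`. -/
theorem result (V : Type u) (G : SimpleGraph V) (α : Type v) (H : SimpleGraph α)
    (hH : IsFiveMinusPath H) (hG : ¬ IsInducedMinor H G) :
    ∃ (W : Type u) (G' : SimpleGraph W) (f : V → W), Function.Surjective f ∧
      (∀ x y : V, G.edist x y ≤ 8 * G'.edist (f x) (f y) + 7) ∧
      (∀ x y : V, G'.edist (f x) (f y) ≤ G.edist x y) ∧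
      ¬ IsMinor H G' := by
  have hNC2 : SpecNC2.{u} := specNC2
  have hMIN : SpecMIN.{u} := specMIN specSH5
  have hMP3 : SpecMP3.{u} := specMP3 hNC2 specMP2
  have hALF : SpecALF.{u} := specALF hMIN (specMP1 hNC2) hMP3 specMPC specMPR specMPD
  have hGRW : SpecGRW.{u} := specGRW
  have hEX2 : SpecEX2.{u} := specEX2
  have hONE : SpecONE.{u} := specONE hNC2 hEX2
  have hCLO : SpecCLO.{u} := specCLO hGRW hONE
  have hDIS : SpecDIS.{u} := specDIS hGRW hEX2
  have hBLK : SpecBLK.{u} := specBLK hCLO hDIS specTWO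
  have hCNB : SpecCNB.{u} := specCNB
  have hINT : SpecINT.{u} := specINT
  have hLF2 : SpecLF2.{u} := specLF2
  have hQNT : SpecQNT.{u} := specQNT hLF2
  have hSNG : SpecSNG.{u} := specSNG hLF2
  have hNM5 : SpecNM5.{u} := specNM5 hALF hQNT hSNG specTRF hBLK hCNB
  have hMAJ : SpecMAJ.{u} :=
    specMAJ hBLK hCNB hINT specGAT (specUNI hINT) specSTD specQI7 hQNT hNM5
  obtain ⟨W, G', f, hf, hlow, hupp, hN', hK⟩ := hMAJ V G ((specMNT.{u, v} V G α H hH).2 hG)
  refine ⟨W, G', f, hf, hlow, hupp, fun hmin => ?_⟩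
  obtain ⟨P, Q, A, B, C, hm⟩ := specMMT.{u, v} W G' α H hH hN' hmin
  exact hK P Q A B C hm

end Pool.Agent.Results.MP_bafc89_co.FiveMinusPath
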