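import Pool.Agent.Lib.MP_bafc89_co.BQ.SCA
import Pool.Agent.Lib.MP_bafc89_co.BQ.PRI
import Pool.Agent.Lib.MP_bafc89_co.BQ.HFA
import Pool.Agent.Lib.MP_bafc89_co.BQ.KHB
import Pool.Agent.Lib.MP_bafc89_co.BQ.FAR
import Pool.Agent.Lib.MP_bafc89_co.BQ.NEA
import Pool.Agent.Lib.MP_bafc89_co.BQ.STR
import Pool.Agent.Lib.MP_bafc89_co.BQ.ZCO
import Pool.Agent.Lib.MP_bafc89_co.BQ.CMP
import Pool.Agent.Lib.MP_bafc89_co.BQ.REC
import Pool.Agent.Lib.MP_bafc89_co.BQ.PIG
import Pool.Agent.Lib.MP_bafc89_co.BQ.PHI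
import Pool.Agent.Lib.MP_bafc89_co.BQ.TRF
import Pool.Agent.Lib.MP_bafc89_co.BQ.RHH
import Pool.Agent.Lib.MP_bafc89_co.BQ.RCC
import Pool.Agent.Lib.MP_bafc89_co.BQ.NOL
import Pool.Agent.Lib.MP_bafc89_co.BQ.CLD
import Pool.Agent.Lib.MP_bafc89_co.BQ.TRE
import Pool.Agent.Lib.MP_bafc89_co.BQ.QIW
import Pool.Agent.Lib.MP_bafc89_co.BQ.QIG
import Pool.Agent.Lib.MP_bafc89_co.BQ.BUP
import Pool.Agent.Lib.MP_bafc89_co.BQ.BEF
import Pool.Agent.Lib.MP_bafc89_co.BQ.BLO
import Pool.Agent.Lib.MP_bafc89_co.BQ.CTH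
import Pool.Agent.Lib.MP_bafc89_co.BQ.MON
import Pool.Agent.Lib.MP_bafc89_co.BQ.FCO
import Pool.Agent.Lib.MP_bafc89_co.BQ.F2I
import Pool.Agent.Lib.MP_bafc89_co.BQ.FCT
import Pool.Agent.Lib.MP_bafc89_co.BQ.FTH
import Pool.Agent.Lib.MP_bafc89_co.BQ.SPL
import Pool.Agent.Lib.MP_bafc89_co.BQ.TR2
import Pool.Agent.Lib.MP_bafc89_co.BQ.QG2
import Pool.Agent.Lib.MP_bafc89_co.BQ.PRU
import Pool.Agent.Lib.MP_bafc89_co.BQ.CN1
import Pool.Agent.Lib.MP_bafc89_co.BQ.CN2
import Pool.Agent.Lib.MP_bafc89_co.BQ.DEP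
import Pool.Agent.Lib.MP_bafc89_co.BQ.TAI
import Pool.Agent.Lib.MP_bafc89_co.BQ.FZC
import Pool.Agent.Lib.MP_bafc89_co.BQ.AAA
import Pool.Agent.Lib.MP_bafc89_co.BQ.HUB
import Pool.Agent.Lib.MP_bafc89_co.BQ.EXC
import Pool.Agent.Lib.MP_bafc89_co.BQ.SYF
import Pool.Agent.Lib.MP_bafc89_co.BQ.DI2
import Pool.Agent.Lib.MP_bafc89_co.BQ.FLF

/-!
# MP_bafc89_co: connected graphs with a cycle and at most one vertex of degree at least three

Q1, and its coarse (fat minor) form, for every flower `H`: a centre with `c ≥ 1` cycles and `h`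
pendant paths, that is, for every connected graph which has a cycle and at most one vertex of degree
`≥ 3`.  The graphs without an induced `H`-minor, more generally the graphs without a `K`-fat
`H`-minor, are uniformly quasi-isometric to graphs without an `H`-minor.  The constants depend only
on `K`, `c`, `h` and on the lengths of the cycles and paths.
-/

set_option autoImplicit false

namespace Pool.Agent.Results.MP_bafc89_co.OneBranchVertex

open SimpleGraph Pool.Agent.Lib.MPbafc89.BQ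

universe u w

/-- `H` is a flower with `c` cycles and `h` pendant paths of sizes at most `ℓ`: `H` is isomorphic to
the graph `flower m n` (a centre; for every `i : Fin c` a path with `m i` vertices whose two ends are
joined to the centre, that is, a cycle of length `m i + 1` through the centre; for every `i : Fin h` a
path with `n i` vertices whose first vertex is joined to the centre). -/
def IsFlower {β : Type w} (ℓ c h : ℕ) (H : SimpleGraph β) : Prop :=
  ∃ (m : Fin c → ℕ) (n : Fin h → ℕ), (∀ i, 2 ≤ m i ∧ m i + 1 ≤ ℓ) ∧ (∀ i, 1 ≤ n i ∧ n i ≤ ℓ) ∧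
    Nonempty (H ≃g flower m n)

theorem congrMinor {α β V : Type*} {H : SimpleGraph α}
    {H' : SimpleGraph β} (e : H ≃g H') {G : SimpleGraph V} (h : IsMinor H G) : IsMinor H' G := by
  obtain ⟨B, h1, h2, h3⟩ := h
  refine ⟨fun i => B (e.symm i), fun i => h1 _, fun i j hij => h2 _ _ ?_, fun i j hij => h3 _ _ ?_⟩
  · exact fun h => hij (e.symm.injective h)
  · exact e.symm.map_rel_iff.mpr hij

theorem congrInduced {α β V : Type*} {H : SimpleGraph α}
    {H' : SimpleGraph β} (e : H ≃g H') {G : SimpleGraph V} (h : IsInducedMinor H G) :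
    IsInducedMinor H' G := by
  obtain ⟨B, h1, h2, h3⟩ := h
  refine ⟨fun i => B (e.symm i), fun i => h1 _, fun i j hij => h2 _ _ ?_, fun i j hij => ?_⟩
  · exact fun h => hij (e.symm.injective h)
  · rw [← h3 _ _ (fun h => hij (e.symm.injective h))]
    exact e.symm.map_rel_iff.symm

theorem congrFat {α β V : Type*} {H : SimpleGraph α} {K : ℕ}
    {H' : SimpleGraph β} (e : H ≃g H') {G : SimpleGraph V} (h : IsFatMinor K H G) :
    IsFatMinor K H' G := by
  obtain ⟨B, P, h1, h2, h3, h4, h5, h6⟩ := h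
  have hE : ∀ s ∈ H'.edgeSet, Sym2.map e.symm s ∈ H.edgeSet := by
    intro s hs
    induction s with
    | _ x y =>
      rw [Sym2.map_mk]
      exact e.symm.map_rel_iff.mpr hs
  refine ⟨fun x => B (e.symm x), fun s => P (Sym2.map e.symm s), fun x => h1 _,
    fun s hs => h2 _ (hE s hs), fun s hs x hx => h3 _ (hE s hs) _ ?_, fun x y hxy => h4 _ _ ?_,
    fun s hs s' hs' hss => h5 _ (hE s hs) _ (hE s' hs') ?_, fun x s hs hx => h6 _ _ (hE s hs) ?_⟩
  · exact Sym2.mem_map.mpr ⟨x, hx, rfl⟩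
  · exact fun h => hxy (e.symm.injective h)
  · exact fun h => hss (Sym2.map.injective e.symm.injective h)
  · intro h
    obtain ⟨y, hy, hyx⟩ := Sym2.mem_map.mp h
    exact hx (e.symm.injective hyx ▸ hy)

theorem fatMono {α V : Type*} {H : SimpleGraph α} {G : SimpleGraph V} {K K' : ℕ} (hK : K' ≤ K)
    (h : IsFatMinor K H G) : IsFatMinor K' H G := by
  obtain ⟨B, P, h1, h2, h3, h4, h5, h6⟩ := h
  have hKK : (K' : ℕ∞) ≤ (K : ℕ∞) := by exact_mod_cast hK
  exact ⟨B, P, h1, h2, h3, fun x y hxy p hp q hq => hKK.trans (h4 x y hxy p hp q hq),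
    fun s hs s' hs' hss p hp q hq => hKK.trans (h5 s hs s' hs' hss p hp q hq),
    fun x s hs hx p hp q hq => hKK.trans (h6 x s hs hx p hp q hq)⟩

theorem flowers (K l c h : ℕ) (hc : 1 ≤ c) : ∃ M A : ℕ, ∀ (V : Type u) (G : SimpleGraph V)
    (m : Fin c → ℕ) (n : Fin h → ℕ), (∀ i, 2 ≤ m i ∧ m i ≤ l) → (∀ i, 1 ≤ n i ∧ n i ≤ l) →
    (∀ C : G.ConnectedComponent, ¬ IsFatMinor K (flower m n) (G.induce C.supp)) →
    ∃ (W : Type u) (G' : SimpleGraph W) (f : V → W), QI G G' f M A ∧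
      ¬ IsMinor (flower m n) G' := by
  have hHFA : SpecHFA.{u} := specHFA
  have hPRI : SpecPRI.{u} := specPRI
  have hKHB : SpecKHB.{u} := specKHB hHFA
  have hFAR : SpecFAR.{u} := specFAR hHFA hPRI hKHB
  have hNEA : SpecNEA.{u} := specNEA hHFA hPRI
  have hSTR : SpecSTR.{u} := specSTR hHFA hFAR hNEA
  have hZCO : SpecZCO.{u} := specZCO hHFA
  have hCMP : SpecCMP.{u} := specCMP hHFA hZCO
  have hREC : SpecREC.{u} := specREC
  have hPIG : SpecPIG.{u} := specPIG hREC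
  have hPHI : SpecPHI.{u} := specPHI hHFA hSTR
  have hTRF : SpecTRF.{u} := specTRF hZCO hCMP hREC hPHI
  have hRHH : SpecRHH.{u} := specRHH hHFA hPRI
  have hRCC : SpecRCC.{u} := specRCC hHFA hPRI hKHB
  have hNOL : SpecNOL.{u} := specNOL hZCO hPIG hTRF hRHH hRCC
  have hCLD : SpecCLD.{u} := specCLD
  have hTRE : SpecTRE.{u} := specTRE
  have hQIW : SpecQIW.{u} := specQIW
  have hQIG : SpecQIG.{u} := specQIG hHFA hZCO hCLD hTRE hQIW
  have hBUP : SpecBUP.{u} := specBUP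
  have hBEF : SpecBEF.{u, 0} := specBEF
  have hBLO : SpecBLO.{u, 0} := specBLO
  have hCTH : SpecCTH.{u, 0} := specCTH hNOL hQIG hBUP hBEF hBLO
  have hSCA : SpecSCA.{u} := specSCA
  have hFCT : SpecFCT := specFCT
  have hFTH : SpecFTH.{u} := specFTH
  have hSPL : SpecSPL.{u} := specSPL
  have hTR2 : SpecTR2.{u} := specTR2
  have hQG2 : SpecQG2.{u} := specQG2 hHFA hZCO hCLD hQIW
  have hPRU : SpecPRU.{u} := specPRU
  have hCN1 : SpecCN1.{u} := specCN1
  have hCN2 : SpecCN2.{u} := specCN2 hBEF hCN1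
  have hDEP : SpecDEP.{u} := specDEP hHFA hZCO
  have hTAI : SpecTAI.{u} := specTAI hZCO hDEP
  have hFZC : SpecFZC.{u} := specFZC
  have hAAA : SpecAAA.{u} := specAAA hHFA hZCO hPHI hDEP hFZC
  have hHUB : SpecHUB.{u} := specHUB hHFA hZCO hDEP hAAA
  have hEXC : SpecEXC.{u} := specEXC hNOL hZCO hTR2 hQG2 hPRU hCN2 hTAI hHUB hSPL hFTH
  have hSYF : SpecSYF.{u} := specSYF hSPL hFTH
  have hDI2 : SpecDI2.{u, 0} := specDI2
  exact specFLF hSCA hCTH hFCT hEXC hSYF hDI2 K l c h hc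

/-- **Connected graphs with a cycle and at most one vertex of degree at least three.**  For all `K`,
`ℓ`, `h` and `c ≥ 1` there are constants `M`, `A` such that for every graph `G` and every flower `H`
with `c` cycles of lengths between `3` and `ℓ` and `h` pendant paths with between `1` and `ℓ` vertices:
if `H` is not an induced minor of `G`, or if `H` is not a `K`-fat minor of `G`, then there is an
`(M, A)`-quasi-isometry from `G` onto a graph `G'` such that `H` is not a minor of `G'`. -/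
theorem result (K ℓ c h : ℕ) (hc : 1 ≤ c) : ∃ M A : ℕ, ∀ (V : Type u) (G : SimpleGraph V)
    (β : Type w) (H : SimpleGraph β), IsFlower ℓ c h H →
    (¬ IsInducedMinor H G ∨ ¬ IsFatMinor K H G) →
    ∃ (W : Type u) (G' : SimpleGraph W) (f : V → W),
      (∀ x y : V, G.edist x y ≤ (M : ℕ∞) * G'.edist (f x) (f y) + (A : ℕ∞)) ∧
      (∀ x y : V, G'.edist (f x) (f y) ≤ (M : ℕ∞) * G.edist x y + (A : ℕ∞)) ∧
      (∀ y : W, ∃ x : V, G'.edist (f x) y ≤ (A : ℕ∞)) ∧
      ¬ IsMinor H G' := by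
  obtain ⟨M, A, hMA⟩ := flowers.{u} (K + 2) ℓ c h hc
  refine ⟨M, A, fun V G β H hH hind => ?_⟩
  obtain ⟨m, n, hm, hn, ⟨e⟩⟩ := hH
  have hS : ∀ C : G.ConnectedComponent,
      ¬ IsFatMinor (K + 2) (flower m n) (G.induce C.supp) := by
    intro C hC
    have hG : IsFatMinor (K + 2) (flower m n) G := specFCO _ _ C _ _ _ hC
    rcases hind with hind | hind
    · exact hind (congrInduced e.symm (specF2I _ _ _ _ (fatMono (by omega) hG)))
    · exact hind (congrFat e.symm (fatMono (by omega) hG))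
  obtain ⟨W, G', f, hQ, hK⟩ := hMA V G m n (fun i => ⟨(hm i).1, by have := (hm i).2; omega⟩) hn hS
  exact ⟨W, G', f, hQ.low, hQ.upp, hQ.cov, fun hmin => hK (congrMinor e hmin)⟩

end Pool.Agent.Results.MP_bafc89_co.OneBranchVertex
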